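import Pool.Agent.Lib_helper80.IS.Main

/-! # Irregular surfaces (MP_45e720_ag): final assembly -/

set_option autoImplicit false
set_option linter.unusedVariables false
set_option linter.unusedSectionVars false

open Filter Topology Metric Set
open scoped Manifold ContDiff

namespace Pool.Agent.IS

open Pool.Agent.BR Pool.Agent.MBS Pool.Agent.SL

section

variable {E X X' : Type} [NormedAddCommGroup E] [NormedSpace ℂ E] [FiniteDimensional ℂ E]

theorem etale_elliptic [TopologicalSpace X] [ChartedSpace E X] [IsManifold 𝓘(ℂ, E) ω X]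
    [TopologicalSpace X'] [ChartedSpace E X'] [IsManifold 𝓘(ℂ, E) ω X']
    {π : X' → X} (hπ : MDifferentiable 𝓘(ℂ, E) 𝓘(ℂ, E) π)
    (hi : ∀ (x' : X') (v : E), (SS.dirDeriv π x' v : E) = 0 → v = 0)
    (hX : BrodyRigid.NoEllipticMaps E X) : BrodyRigid.NoEllipticMaps E X' := by
  intro f hf hp
  have h1 : MDifferentiable 𝓘(ℂ, ℂ) 𝓘(ℂ, E) (fun z => π (f z)) := hπ.comp hf
  obtain ⟨Λ, h2, h3, h4⟩ := hp
  have h5 := hX (fun z => π (f z)) h1 ⟨Λ, h2, h3, fun l hl z => by simp only [h4 l hl z]⟩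
  exact e2_const (e2_local hπ hi) hf.continuous h5

theorem surface_hyp_metric [MetricSpace X] [CompactSpace X]
    [ConnectedSpace X] [ChartedSpace E X] [IsManifold 𝓘(ℂ, E) ω X]
    (h2 : Module.finrank ℂ E = 2) (hX : BrodyRigid.PlaneAmple E X)
    (hI : StrongLang.Irregular E X) (hT : BrodyRigid.NoEllipticMaps E X) :
    SS.BrodyHyperbolic E X := by
  obtain ⟨𝒢, h1, -, h3⟩ := SL.main_thm hX
  have h4 := (h3 (by
    intro h hh hN
    by_contra hno
    push Not at hno
    rcases null_surface h2 hX hh hN hno with ⟨-, h5⟩ | ⟨g, h5, h6, ⟨z, z', h7⟩, -⟩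
    · exact h5 hI
    · exact h7 (hT g h5 h6 z z'))).2.2
  refine (h4.out 0 1).1 ?_
  rw [eq_empty_iff_forall_notMem]
  intro g hg
  obtain ⟨z, z', hz⟩ := torus_ne (h1 g hg)
  exact hz (hT g (h1 g hg).1 (h1 g hg).2.1 z z')

theorem surface_hyp_ell [t : TopologicalSpace X] [CompactSpace X] [T2Space X]
    [ConnectedSpace X] [ChartedSpace E X] [IsManifold 𝓘(ℂ, E) ω X]
    (h2 : Module.finrank ℂ E = 2) (hX : BrodyRigid.PlaneAmple E X)
    (hI : StrongLang.Irregular E X) (hT : BrodyRigid.NoEllipticMaps E X) :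
    SS.BrodyHyperbolic E X := by
  obtain ⟨m, hm, -⟩ := exists_metric (E := E) (X := X)
  subst hm
  exact surface_hyp_metric h2 hX hI hT

theorem brody_torus [TopologicalSpace X] [ChartedSpace E X] [IsManifold 𝓘(ℂ, E) ω X]
    (hX : SS.NoTorusMaps E X) : BrodyRigid.NoEllipticMaps E X := by
  intro f hf hp
  obtain ⟨Λ, h2, h3, h4⟩ := hp
  exact hX ℂ Λ f hf h4

/-- Lang's question for irregular surfaces -/
theorem irregular_main [TopologicalSpace X] [CompactSpace X] [T2Space X]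
    [ConnectedSpace X] [ChartedSpace E X] [IsManifold 𝓘(ℂ, E) ω X]
    (hX : BrodyRigid.CanonicalAmple E X) (hI : StrongLang.IrregularCovering E X) :
    List.TFAE [BrodyRigid.NoEllipticMaps E X, SS.NoTorusMaps E X, SS.BrodyHyperbolic E X,
      ∀ x : X, StrongLang.HyperbolicAt E x] := by
  have h2 : Module.finrank ℂ E = 2 := hX.1
  have hP : BrodyRigid.PlaneAmple E X := BrodyRigid.planeAmple_of_canonicalAmple hX
  obtain ⟨𝒢, -, -, h3⟩ := SL.main_thm hP
  have key : SS.BrodyHyperbolic E X → (SS.NoTorusMaps E X ∧ ∀ x : X, StrongLang.HyperbolicAt E x) := by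
    intro hb
    have h4 := (h3 (fun h hh _ => hb h hh.1)).2.2
    exact ⟨(h4.out 1 2).1 hb, (h4.out 1 3).1 hb⟩
  tfae_have 3 → 4 := fun h => (key h).2
  tfae_have 4 → 3 := brody_of_hyp'
  tfae_have 3 → 2 := fun h => (key h).1
  tfae_have 2 → 1 := brody_torus
  tfae_have 1 → 3 := by
    intro hT
    obtain ⟨X', i1, i2, i3, i4, i5, i6, π, h5, h6, h7⟩ := hI
    exact etale_entire h5 h6 (surface_hyp_ell h2 (etale_planeAmple h5 h6 hP) (Or.inl h7)
      (etale_elliptic h5 h6 hT))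
  tfae_finish

end

end Pool.Agent.IS
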