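import Pool.Agent.Lib_helper80.IS.NotionsI

/-! # Hyperbolicity modulo tori (MP_45e720_ag): definitions for the statement, surfaces -/

set_option autoImplicit false

open Filter Topology Metric Set
open scoped Manifold ContDiff

namespace Pool.Agent.StrongLang

section

variable (E : Type) {X : Type} [NormedAddCommGroup E] [NormedSpace ℂ E] [TopologicalSpace X]
  [ChartedSpace E X] [IsManifold 𝓘(ℂ, E) ω X]

/-- Every plane form of positive weight which vanishes along the entire curve `h` is zero. If `X` is
a surface, then the plane forms are the pluricanonical forms, and if moreover the canonical bundle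
of `X` is ample, then this says that `h` is Zariski dense (it is contained in no algebraic curve). -/
def ZariskiDense (h : ℂ → X) : Prop :=
  ∀ (k : ℕ) (τ : BrodyRigid.TangentPairs E X → ℂ), 0 < k → BrodyRigid.IsPlaneForm E X k τ →
    (∀ (z : ℂ) (u v : E), τ (BrodyRigid.pair (h z) u v) = 0) →
      ∀ (x : X) (u v : E), τ (BrodyRigid.pair x u v) = 0

omit [IsManifold 𝓘(ℂ, E) ω X] in
/-- `h` is contained in a rational or elliptic curve, the image of a nonconstant doubly periodic
holomorphic curve `g`. -/
def InTorusCurve (h : ℂ → X) : Prop :=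
  ∃ g : ℂ → X, MDifferentiable 𝓘(ℂ, ℂ) 𝓘(ℂ, E) g ∧ BrodyRigid.DoublyPeriodic g ∧
    (∃ z z', g z ≠ g z') ∧ Set.range h ⊆ Set.range g

variable (X)

/-- `X` has two symmetric differentials of positive degrees which have at some point `x` no common
zero in the tangent space, except for the zero vector. (If `X` is a connected surface, then this says
that they have no common factor.) -/
def CoprimeSymDiffs : Prop :=
  ∃ (m m' : ℕ) (σ σ' : TangentBundle 𝓘(ℂ, E) X → ℂ) (x : X), 0 < m ∧ 0 < m' ∧
    SS.IsSymDiff E X m σ ∧ SS.IsSymDiff E X m' σ' ∧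
      ∀ v : E, v ≠ 0 → σ ⟨x, v⟩ = 0 → σ' ⟨x, v⟩ ≠ 0

/-- `X` has a nonconstant holomorphic map to a complex torus or two symmetric differentials without
common zeros at some point. -/
def Irregular : Prop :=
  MapsToTorus E X ∨ CoprimeSymDiffs E X

/-- Some finite unramified covering `X'` of `X` is irregular. (A holomorphic map `π : X' → X` with
injective derivatives between compact connected manifolds of the same dimension is a finite
unramified covering.) -/
def VirtuallyIrregular : Prop :=
  ∃ (X' : Type) (_ : TopologicalSpace X') (_ : CompactSpace X') (_ : T2Space X')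
    (_ : ConnectedSpace X') (_ : ChartedSpace E X') (_ : IsManifold 𝓘(ℂ, E) ω X') (π : X' → X),
    MDifferentiable 𝓘(ℂ, E) 𝓘(ℂ, E) π ∧
      (∀ (x' : X') (v : E), (SS.dirDeriv π x' v : E) = 0 → v = 0) ∧ Irregular E X'

end

end Pool.Agent.StrongLang
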