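import Pool.Agent.Lib_helper82.BR.Statement

/-! # Brody curves in algebraic curves (MP_45e720_ag): interface of the plane theorem

`H : ℂ → P^n` is an entire curve with bounded derivative (`UnifLift`) whose homogeneous coordinates
satisfy, three by three, a homogeneous relation (`Rel3`; this says that the field generated by the
quotients of the coordinates has transcendence degree at most one). -/

set_option autoImplicit false

open Filter Topology Metric Set

namespace Pool.Agent.IS

/-- the projective space of dimension `n` -/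
abbrev PP (n : ℕ) : Type := Projectivization ℂ (Fin (n + 1) → ℂ)

/-- `H` is a holomorphic map from the plane to the projective space: it has local holomorphic
lifts -/
def HolP {n : ℕ} (H : ℂ → PP n) : Prop :=
  ∀ z₀ : ℂ, ∃ F : ℂ → Fin (n + 1) → ℂ, ∀ᶠ z in 𝓝 z₀, AnalyticAt ℂ F z ∧
    ∃ h : F z ≠ 0, H z = Projectivization.mk ℂ (F z) h

/-- `H` has holomorphic lifts on all discs of a fixed radius, which are uniformly bounded and have a
coordinate equal to one: `H` is an entire curve with bounded derivative -/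
def UnifLift {n : ℕ} (H : ℂ → PP n) : Prop :=
  ∃ δ C : ℝ, 0 < δ ∧ ∀ z₀ : ℂ, ∃ (F : ℂ → Fin (n + 1) → ℂ) (p : Fin (n + 1)),
    DifferentiableOn ℂ F (ball z₀ δ) ∧ ∀ z ∈ ball z₀ δ, F z p = 1 ∧ ‖F z‖ ≤ C ∧
      ∃ h : F z ≠ 0, H z = Projectivization.mk ℂ (F z) h

/-- any three homogeneous coordinates satisfy a homogeneous relation along `H` -/
def Rel3 {n : ℕ} (H : ℂ → PP n) : Prop :=
  ∀ p q r : Fin (n + 1), ∃ (d : ℕ) (R : MvPolynomial (Fin 3) ℂ), R ≠ 0 ∧ R.IsHomogeneous d ∧
    ∀ z, MvPolynomial.eval ![(H z).rep p, (H z).rep q, (H z).rep r] R = 0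

/-- `H` is the composition of a holomorphic curve `u : ℂ → P^1` with a rational map `P`
(homogeneous polynomials of degree `d` without common zeros) -/
def RatFactor {n : ℕ} (H : ℂ → PP n) : Prop :=
  ∃ (d : ℕ) (P : Fin (n + 1) → MvPolynomial (Fin 2) ℂ), (∀ i, (P i).IsHomogeneous d) ∧
    (∀ v : Fin 2 → ℂ, v ≠ 0 → (fun i => MvPolynomial.eval v (P i)) ≠ 0) ∧
    ∃ u : ℂ → PP 1, HolP u ∧ ∀ z, ∃ h : (fun i => MvPolynomial.eval (u z).rep (P i)) ≠ 0,
      H z = Projectivization.mk ℂ (fun i => MvPolynomial.eval (u z).rep (P i)) h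

/-- the plane theorem (statement) -/
def PlaneTheorem : Prop :=
  ∀ {n : ℕ} (H : ℂ → PP n), UnifLift H → Rel3 H → (∃ z z', H z ≠ H z') →
    BrodyRigid.DoublyPeriodic H ∨ RatFactor H

end Pool.Agent.IS
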