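import Pool.Agent.Lib_helper80.IS.L.P1
import Pool.Agent.Lib_helper80.IS.L.P2
import Pool.Agent.Lib_helper80.IS.L.P3
import Pool.Agent.Lib_helper80.IS.L.R1
import Pool.Agent.Lib_helper80.IS.L.R2
import Pool.Agent.Lib_helper80.IS.L.R3
import Pool.Agent.Lib_helper80.IS.L.R4
import Pool.Agent.Lib_helper80.IS.L.R5
import Pool.Agent.Lib_helper80.IS.L.R6
import Pool.Agent.Lib_helper80.IS.L.R7
import Pool.Agent.Lib_helper80.IS.L.R8
import Pool.Agent.Lib_helper80.IS.L.R9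
import Pool.Agent.Lib_helper80.IS.L.S1
import Pool.Agent.Lib_helper80.IS.L.S2
import Pool.Agent.Lib_helper80.IS.L.S3
import Pool.Agent.Lib_helper80.IS.L.S4
import Pool.Agent.Lib_helper80.IS.L.S5
import Pool.Agent.Lib_helper80.IS.L.V1
import Pool.Agent.Lib_helper80.IS.L.V2
import Pool.Agent.Lib_helper80.IS.L.V3
import Pool.Agent.Lib_helper80.IS.L.V4
import Pool.Agent.Lib_helper80.IS.L.V5
import Pool.Agent.Lib_helper80.IS.L.V6
import Pool.Agent.Lib_helper80.IS.L.V7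
import Pool.Agent.Lib_helper80.IS.L.V8
import Pool.Agent.Lib_helper80.IS.L.T1
import Pool.Agent.Lib_helper80.IS.L.T2
import Pool.Agent.Lib_helper80.IS.L.T3
import Pool.Agent.Lib_helper80.IS.L.T4
import Pool.Agent.Lib_helper80.IS.L.T5
import Pool.Agent.Lib_helper80.IS.L.T6
import Pool.Agent.Lib_helper80.IS.L.T7
import Pool.Agent.Lib_helper80.IS.L.X1
import Pool.Agent.Lib_helper80.IS.L.X2
import Pool.Agent.Lib_helper80.IS.L.X3
import Pool.Agent.Lib_helper80.IS.L.E1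
import Pool.Agent.Lib_helper80.IS.L.E2
import Pool.Agent.Lib_helper80.IS.Notions
import Pool.Agent.Lib_helper80.SL.Main3
import Pool.Agent.Lib_helper82.PT.Plane

/-! # Brody curves in algebraic curves (MP_45e720_ag): assembly -/

set_option autoImplicit false
set_option linter.unusedVariables false
set_option linter.unusedSectionVars false

open Filter Topology Metric Set
open scoped Manifold ContDiff

namespace Pool.Agent.IS

open Pool.Agent.BR Pool.Agent.MBS Pool.Agent.SL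

section charts

variable {E X : Type} [NormedAddCommGroup E] [NormedSpace ℂ E] [FiniteDimensional ℂ E]
  [MetricSpace X] {A : Cha E X}

theorem PImm.plift {n : ℕ} {ι : X → PP n} (hι : PImm A n ι) : Plift A n ι := by
  refine ⟨fun x => ?_⟩
  obtain ⟨G, hG, -⟩ := hι.lift x
  exact ⟨G, hG⟩

/-- Lemma T -/
theorem lemT [CompactSpace X] {n : ℕ} {ι : X → PP n} (hι : PImm A n ι)
    {h : ℂ → X} (hh : ∀ z, A.HolAt h z)
    (hu : ∀ ε > 0, ∃ δ > 0, ∀ z z' : ℂ, ‖z - z'‖ < δ → dist (h z) (h z') < ε)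
    (hne : ∃ z z', h z ≠ h z') (hR : Rel3 (fun z => ι (h z))) :
    ∃ g : ℂ → X, (∀ z, A.HolAt g z) ∧ BrodyRigid.DoublyPeriodic g ∧ (∃ z z', g z ≠ g z') ∧
      range h ⊆ range g := by
  have hc : Continuous h := continuous_iff_continuousAt.2 fun z => (hh z).1
  have hne' : ∃ z z', ι (h z) ≠ ι (h z') := by
    by_contra hno
    push Not at hno
    obtain ⟨z, z', hz⟩ := hne
    exact hz (lift_uniq hι (S := univ) isPreconnected_univ hc.continuousOn
      (continuous_const (y := h z')).continuousOn (fun w _ => hno w z') (mem_univ z') rfl z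
      (mem_univ z))
  rcases Pool.Agent.PT.plane _ (unif_lift hι.plift hh hu) hR hne' with h1 | h1
  · exact ⟨h, hh, periodic_of hι hh h1, hne, Subset.rfl⟩
  · exact rat_lift hι hh hne h1

/-- the elliptic case -/
theorem rel3_of_elliptic [CompactSpace X] [ConnectedSpace X] (e : Module.Basis (Fin 2) ℂ E)
    {n : ℕ} {ι : X → PP n} (hι : Plift A n ι) {Γ' : Submodule ℤ ℂ} [DiscreteTopology Γ']
    {f : X → ℂ ⧸ Γ'} {Φ' : A.ι → X → (E →L[ℂ] ℂ)} (hP : Prim A f Φ') (hnz : NZ (A := A) Φ')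
    {h : ℂ → X} (hh : ∀ z, A.HolAt h z) (hf : ∀ z z', f (h z) = f (h z')) :
    Rel3 (fun z => ι (h z)) := by
  have := lattice_of_compact hP hnz
  obtain ⟨β, hβ, hβ1, hβ2⟩ := exists_beta hP hnz (h 0)
  intro p q r
  obtain ⟨D, d, R, hR, hR0, hrel⟩ := siegel e hι hβ p q r 0 1
  exact rel_div hι hβ hh hR hR0 hrel hβ1 (fun z => (hβ2 (h z) (hf z 0)).1)
    ⟨0, (hβ2 (h 0) rfl).2⟩

end charts

section metric

variable {E X : Type} [NormedAddCommGroup E] [NormedSpace ℂ E] [FiniteDimensional ℂ E]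

theorem surface_metric [MetricSpace X] [CompactSpace X] [ConnectedSpace X]
    [ChartedSpace E X] [IsManifold 𝓘(ℂ, E) ω X] (h2 : Module.finrank ℂ E = 2)
    (hX : BrodyRigid.PlaneAmple E X) {h : ℂ → X} (hh : BrodyRigid.IsBrodyCurve (E := E) h)
    (hne : ∃ z z', h z ≠ h z')
    (hcase : ¬ StrongLang.ZariskiDense E h ∨
      (∃ (W : Type) (_ : NormedAddCommGroup W) (_ : NormedSpace ℂ W) (_ : FiniteDimensional ℂ W)
        (Γ : Submodule ℤ W) (_ : DiscreteTopology Γ) (φ : X → W ⧸ Γ),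
        StrongLang.IsTorusValued E Γ φ ∧ (∃ x y, φ x ≠ φ y) ∧ ∀ z z', φ (h z) = φ (h z')) ∨
      (StrongLang.CoprimeSymDiffs E X ∧ BrodyRigid.Annihilated (E := E) h)) :
    ∃ g : ℂ → X, MDifferentiable 𝓘(ℂ, ℂ) 𝓘(ℂ, E) g ∧ BrodyRigid.DoublyPeriodic g ∧
      (∃ z z', g z ≠ g z') ∧ range h ⊆ range g := by
  obtain ⟨A, hA⟩ := exists_cha (E := E) (X := X)
  obtain ⟨L, k, hk, ⟨F⟩⟩ := exists_frm A hA (BrodyRigid.planeAmple_iff.1 hX)
  let e : Module.Basis (Fin 2) ℂ E := Module.finBasisOfFinrankEq ℂ E h2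
  obtain ⟨n, a, ha⟩ := exists_af e F
  obtain ⟨ι, hιP, hιa⟩ := vs_map (af_vs ha)
  have hι : PImm A n ι := af_imm ha hιa
  have hhA : ∀ z, A.HolAt h z := (holAt_iff A hA h).1 hh.1
  obtain ⟨C, hC⟩ := brody_bound A hA h ((BrodyRigid.isBrodyCurve_iff h).1 hh)
  have hu : ∀ ε > 0, ∃ δ > 0, ∀ z z' : ℂ, ‖z - z'‖ < δ → dist (h z) (h z') < ε := by
    intro ε hε
    obtain ⟨δ, hδ, hd⟩ := equicont A C ε hε
    exact ⟨δ, hδ, hd h hhA hC⟩
  have key : (∃ w > 0, ∃ t : A.ι → X → ℂ, PS A w t ∧ NZ (A := A) t ∧ VA t h) →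
      Rel3 (fun z => ι (h z)) := by
    rintro ⟨w, hw, t, h3, h4, h5⟩
    exact rel3_of_ps e hk ha hιa hw h3 h4 hhA h5
  have hR : Rel3 (fun z => ι (h z)) := by
    rcases hcase with hz | ⟨W, _, _, _, Γ, _, φ, hφ, hφne, hφh⟩ |
      ⟨⟨m, m', σ, σ', x, hm, hm', hσ, hσ', hx⟩, hann⟩
    · apply key
      unfold StrongLang.ZariskiDense at hz
      push Not at hz
      obtain ⟨w, τ, hw, hτ, hτh, x, u, v, hx⟩ := hz
      obtain ⟨t, ht, ht1, ht2⟩ := ps_of_planeForm hA e hτ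
      obtain ⟨i, hi⟩ := A.cover x
      exact ⟨w, hw, t, ht, ⟨i, x, A.W_sub i (subset_closure hi),
        ht1 x u v hx i (A.W_sub i (subset_closure hi))⟩, fun z j hj => ht2 (h z) (hτh z) j hj⟩
    · obtain ⟨Φ, hP⟩ := exists_prim hA hφ
      have hnz := prim_nz hP hφne
      rcases trich e ha hP hnz hhA hne (prim_kill hP hhA hφh) with h3 | ⟨l, c, hlc, h3, h4⟩
      · exact key h3
      · obtain ⟨Γ', _, f, hf, hfh⟩ := to_line hP hlc h4 hφh
        exact rel3_of_elliptic e hιP hf h3 hhA hfh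
    · apply key
      obtain ⟨t, ht, ht1, ht2⟩ := ps_of_symdiffs hA e hm hm' hσ hσ'
      obtain ⟨i, hi⟩ := A.cover x
      exact ⟨m * m', Nat.mul_pos hm hm', t, ht, ⟨i, x, A.W_sub i (subset_closure hi),
        ht1 x hx i (A.W_sub i (subset_closure hi))⟩, ht2 h hhA hne hann⟩
  obtain ⟨g, hg, h3, h4, h5⟩ := lemT hι hhA hu hne hR
  exact ⟨g, (holAt_iff A hA g).2 hg, h3, h4, h5⟩

theorem surface_curve [t : TopologicalSpace X] [CompactSpace X] [T2Space X]
    [ConnectedSpace X] [ChartedSpace E X] [IsManifold 𝓘(ℂ, E) ω X]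
    (h2 : Module.finrank ℂ E = 2) (hX : BrodyRigid.PlaneAmple E X) {h : ℂ → X}
    (hh : BrodyRigid.IsBrodyCurve (E := E) h) (hne : ∃ z z', h z ≠ h z')
    (hcase : ¬ StrongLang.ZariskiDense E h ∨
      (∃ (W : Type) (_ : NormedAddCommGroup W) (_ : NormedSpace ℂ W) (_ : FiniteDimensional ℂ W)
        (Γ : Submodule ℤ W) (_ : DiscreteTopology Γ) (φ : X → W ⧸ Γ),
        StrongLang.IsTorusValued E Γ φ ∧ (∃ x y, φ x ≠ φ y) ∧ ∀ z z', φ (h z) = φ (h z')) ∨
      (StrongLang.CoprimeSymDiffs E X ∧ BrodyRigid.Annihilated (E := E) h)) :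
    ∃ g : ℂ → X, MDifferentiable 𝓘(ℂ, ℂ) 𝓘(ℂ, E) g ∧ BrodyRigid.DoublyPeriodic g ∧
      (∃ z z', g z ≠ g z') ∧ range h ⊆ range g := by
  obtain ⟨m, hm, -⟩ := exists_metric (E := E) (X := X)
  subst hm
  exact surface_metric h2 hX hh hne hcase

/-- Null Brody curves in surfaces with ample canonical bundle -/
theorem null_surface [TopologicalSpace X] [CompactSpace X] [T2Space X]
    [ConnectedSpace X] [ChartedSpace E X] [IsManifold 𝓘(ℂ, E) ω X]
    (h2 : Module.finrank ℂ E = 2) (hX : BrodyRigid.PlaneAmple E X) {h : ℂ → X}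
    (hh : BrodyRigid.IsBrodyCurve (E := E) h) (hN : StrongLang.IsNull E h)
    (hne : ∃ z z', h z ≠ h z') :
    (StrongLang.ZariskiDense E h ∧ ¬ StrongLang.Irregular E X) ∨
      StrongLang.InTorusCurve E h := by
  by_cases h3 : StrongLang.ZariskiDense E h
  · by_cases h4 : StrongLang.MapsToTorus E X
    · right
      obtain ⟨W, i1, i2, i3, Γ, i4, φ, h5, h6⟩ := h4
      exact surface_curve h2 hX hh hne (Or.inr (Or.inl ⟨W, i1, i2, i3, Γ, i4, φ, h5, h6,
        hN.2.2 W Γ φ h5⟩))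
    · by_cases h5 : StrongLang.CoprimeSymDiffs E X
      · exact Or.inr (surface_curve h2 hX hh hne (Or.inr (Or.inr ⟨h5, hN.2.1⟩)))
      · exact Or.inl ⟨h3, fun h6 => h6.elim h4 h5⟩
  · exact Or.inr (surface_curve h2 hX hh hne (Or.inl h3))

/-- an elliptic or rational curve is excluded by `NoTorusMaps` -/
theorem no_curve [TopologicalSpace X] [ChartedSpace E X] (hT : SS.NoTorusMaps E X)
    {g : ℂ → X} (hg : MDifferentiable 𝓘(ℂ, ℂ) 𝓘(ℂ, E) g) (hp : BrodyRigid.DoublyPeriodic g) :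
    ∀ z z', g z = g z' := by
  obtain ⟨Λ, h1, h2, h3⟩ := hp
  exact hT ℂ Λ g hg h3

theorem surface_hyp [TopologicalSpace X] [CompactSpace X] [T2Space X]
    [ConnectedSpace X] [ChartedSpace E X] [IsManifold 𝓘(ℂ, E) ω X]
    (h2 : Module.finrank ℂ E = 2) (hX : BrodyRigid.PlaneAmple E X)
    (hI : StrongLang.Irregular E X)
    (hT : SS.NoTorusMaps E X) : SS.BrodyHyperbolic E X := by
  obtain ⟨𝒢, -, -, h3⟩ := SL.main_thm hX
  have h4 := (h3 (by
    intro h hh hN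
    by_contra hno
    push Not at hno
    rcases null_surface h2 hX hh hN hno with ⟨-, h5⟩ | ⟨g, h5, h6, ⟨z, z', h7⟩, -⟩
    · exact h5 hI
    · exact h7 (no_curve hT h5 h6 z z'))).2.2
  exact (h4.out 2 1).1 hT

theorem brody_of_hyp' [t : TopologicalSpace X] [CompactSpace X] [T2Space X]
    [ChartedSpace E X] [IsManifold 𝓘(ℂ, E) ω X]
    (h : ∀ x : X, StrongLang.HyperbolicAt E x) : SS.BrodyHyperbolic E X := by
  obtain ⟨m, hm, -⟩ := exists_metric (E := E) (X := X)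
  subst hm
  exact brody_of_hyp h

theorem surface_tfae [TopologicalSpace X] [CompactSpace X] [T2Space X]
    [ConnectedSpace X] [ChartedSpace E X] [IsManifold 𝓘(ℂ, E) ω X]
    (h2 : Module.finrank ℂ E = 2) (hX : BrodyRigid.PlaneAmple E X)
    (hI : StrongLang.VirtuallyIrregular E X) :
    List.TFAE [SS.NoTorusMaps E X, SS.BrodyHyperbolic E X,
      ∀ x : X, StrongLang.HyperbolicAt E x] := by
  obtain ⟨𝒢, -, -, h3⟩ := SL.main_thm hX
  have key : SS.BrodyHyperbolic E X → (SS.NoTorusMaps E X ∧ ∀ x : X, StrongLang.HyperbolicAt E x) := by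
    intro hb
    have h4 := (h3 (fun h hh _ => hb h hh.1)).2.2
    exact ⟨(h4.out 1 2).1 hb, (h4.out 1 3).1 hb⟩
  have key2 : (∀ x : X, StrongLang.HyperbolicAt E x) → SS.BrodyHyperbolic E X :=
    brody_of_hyp'
  tfae_have 2 → 1 := fun h => (key h).1
  tfae_have 2 → 3 := fun h => (key h).2
  tfae_have 3 → 2 := key2
  tfae_have 1 → 2 := by
    intro hT
    obtain ⟨X', i1, i2, i3, i4, i5, i6, π, h5, h6, h7⟩ := hI
    have h8 := etale_planeAmple h5 h6 hX
    have h9 := etale_torus h5 h6 hT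
    exact etale_entire h5 h6 (surface_hyp h2 h8 h7 h9)
  tfae_finish

/-- the final theorem -/
theorem main_thm [TopologicalSpace X] [CompactSpace X] [T2Space X]
    [ConnectedSpace X] [ChartedSpace E X] [IsManifold 𝓘(ℂ, E) ω X]
    (hX : BrodyRigid.PlaneAmple E X) :
    (Module.finrank ℂ E = 2 → StrongLang.VirtuallyIrregular E X →
      List.TFAE [SS.NoTorusMaps E X, SS.BrodyHyperbolic E X,
        ∀ x : X, StrongLang.HyperbolicAt E x]) ∧
    ∃ 𝒢 : Set (ℂ → X), (∀ g ∈ 𝒢, StrongLang.IsTorusImmersion E g) ∧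
      (∀ f : ℂ → X, MDifferentiable 𝓘(ℂ, ℂ) 𝓘(ℂ, E) f → (∃ z z', f z ≠ f z') →
        (∃ g ∈ 𝒢, ∃ P : ℂ → ℂ, Differentiable ℂ P ∧ ∀ z, f z = g (P z)) ∨
        ∃ h : ℂ → X, BrodyRigid.IsBrodyCurve (E := E) h ∧ StrongLang.IsNull E h ∧
          (∃ z z', h z ≠ h z') ∧ StrongLang.IsReparamLimit f h ∧
          (Module.finrank ℂ E = 2 →
            (StrongLang.ZariskiDense E h ∧ ¬ StrongLang.Irregular E X) ∨
              StrongLang.InTorusCurve E h)) ∧
      ((∀ h : ℂ → X, BrodyRigid.IsBrodyCurve (E := E) h → StrongLang.IsNull E h →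
          ∀ z z', h z = h z') →
        𝒢.Finite ∧
        ∀ x : X, List.TFAE [StrongLang.HyperbolicAt E x, StrongLang.EntireConstantAt E x,
          StrongLang.TorusConstantAt E x, ∀ g ∈ 𝒢, x ∉ range g]) := by
  refine ⟨fun h2 hI => surface_tfae h2 hX hI, ?_⟩
  obtain ⟨𝒢, h3, h4, h5⟩ := SL.main_thm hX
  refine ⟨𝒢, h3, fun f hf hne => ?_, fun h6 => ⟨(h5 h6).1, (h5 h6).2.1⟩⟩
  rcases h4 f hf hne with h6 | ⟨h, h6, h7, h8, h9⟩
  · exact Or.inl h6
  · exact Or.inr ⟨h, h6, h7, h8, h9, fun h2 => null_surface h2 hX h6 h7 h8⟩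

end metric

end Pool.Agent.IS
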