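import Pool.Agent.Lib_helper80.IS.Defs
import Pool.Agent.Lib_helper82.BR.Final

/-! # Brody curves in algebraic curves (MP_45e720_ag): common imports of the blocks -/
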