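import Pool.Agent.Lib_helper80.SL.Defs
import Pool.Agent.Lib_helper80.SL.Notions2
import Pool.Agent.Lib_helper80.IS.Iface

/-! # Brody curves in algebraic curves (MP_45e720_ag): definitions used in the proof

`A : Cha E X` is a finite atlas with cores `A.W i` (see Lib_helper82/BR/Defs), `A.loc i f` the
expression of the curve `f` in the chart `i`, `A.HolAt f z`: `f` is holomorphic at `z`. -/

set_option autoImplicit false

open Filter Topology Metric Set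

namespace Pool.Agent.IS

open Pool.Agent.BR Pool.Agent.MBS Pool.Agent.SL

section

variable {E X : Type} [NormedAddCommGroup E] [NormedSpace ℂ E] [MetricSpace X]

/-- `H` is holomorphic near `z₀` -/
def HolPAt {n : ℕ} (H : ℂ → PP n) (z₀ : ℂ) : Prop :=
  ∃ F : ℂ → Fin (n + 1) → ℂ, ∀ᶠ z in 𝓝 z₀, AnalyticAt ℂ F z ∧
    ∃ h : F z ≠ 0, H z = Projectivization.mk ℂ (F z) h

/-- the map `ι` from `X` to the projective space is holomorphic and an immersion -/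
structure PImm (A : Cha E X) (n : ℕ) (ι : X → PP n) : Prop where
  lift : ∀ x : X, ∃ G : X → Fin (n + 1) → ℂ, (∀ᶠ x' in 𝓝 x,
    (∃ h : G x' ≠ 0, ι x' = Projectivization.mk ℂ (G x') h) ∧
    ∀ i, x' ∈ (A.ch i).source → AnalyticAt ℂ (fun ξ => G ((A.ch i).symm ξ)) (A.ch i x')) ∧
    ∀ i, x ∈ (A.ch i).source → ∀ (ξ : E) (m : ℂ),
      fderiv ℂ (fun ξ => G ((A.ch i).symm ξ)) (A.ch i x) ξ = m • G x → ξ = 0

/-- `ρ` is an analytic left inverse of `ι` near `y`, on the open cone `O` of vectors -/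
structure Ret (A : Cha E X) {n : ℕ} (ι : X → PP n) (y : X) (O : Set (Fin (n + 1) → ℂ))
    (ρ : (Fin (n + 1) → ℂ) → X) (V : Set X) : Prop where
  O_open : IsOpen O
  O_cone : ∀ v ∈ O, v ≠ 0 ∧ ∀ c : ℂ, c ≠ 0 → c • v ∈ O ∧ ρ (c • v) = ρ v
  an : ∀ v ∈ O, ContinuousAt ρ v ∧
    ∀ i, ρ v ∈ (A.ch i).source → AnalyticAt ℂ (fun v => A.ch i (ρ v)) v
  V_open : IsOpen V
  mem : y ∈ V
  inv : ∀ x ∈ V, (ι x).rep ∈ O ∧ ρ (ι x).rep = x

/-- homogeneous coordinates: local vectors without zeros, defined up to scalars -/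
structure VS (A : Cha E X) (n : ℕ) (a : A.ι → X → Fin (n + 1) → ℂ) : Prop where
  an : ∀ i, ∀ x ∈ (A.ch i).source, AnalyticAt ℂ (fun ξ => a i ((A.ch i).symm ξ)) (A.ch i x)
  ne : ∀ i, ∀ x ∈ (A.ch i).source, a i x ≠ 0
  tr : ∀ i j x, x ∈ (A.ch i).source → x ∈ (A.ch j).source → ∃ g : ℂ, g ≠ 0 ∧ a i x = g • a j x

/-- the derivative of the change of charts from `i` to `j` at `x` -/
noncomputable def dtr (A : Cha E X) (i j : A.ι) (x : X) : E →L[ℂ] E :=
  fderiv ℂ (fun ξ => A.ch j ((A.ch i).symm ξ)) (A.ch i x)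

/-- the jacobian determinant of the change of charts from `i` to `j` at `x` -/
noncomputable def jac (A : Cha E X) (i j : A.ι) (x : X) : ℂ :=
  LinearMap.det (dtr A i j x : E →ₗ[ℂ] E)

/-- `t` is a section of the `w`-th power of the canonical bundle (in the charts) -/
structure PS (A : Cha E X) (w : ℕ) (t : A.ι → X → ℂ) : Prop where
  an : ∀ i, ∀ x ∈ (A.ch i).source, AnalyticAt ℂ (fun ξ => t i ((A.ch i).symm ξ)) (A.ch i x)
  tr : ∀ i j x, x ∈ (A.ch i).source → x ∈ (A.ch j).source → t i x = jac A i j x ^ w * t j x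

/-- `a` is a vector of sections of the `k`-th power of the canonical bundle, without common zeros,
which defines an immersion to a projective space -/
structure AF (A : Cha E X) (n k : ℕ) (a : A.ι → X → Fin (n + 1) → ℂ) : Prop where
  an : ∀ i, ∀ x ∈ (A.ch i).source, AnalyticAt ℂ (fun ξ => a i ((A.ch i).symm ξ)) (A.ch i x)
  tr : ∀ i j x, x ∈ (A.ch i).source → x ∈ (A.ch j).source → a i x = jac A i j x ^ k • a j x
  ne : ∀ i, ∀ x ∈ (A.ch i).source, a i x ≠ 0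
  imm : ∀ i, ∀ x ∈ (A.ch i).source, ∀ (ξ : E) (m : ℂ),
    fderiv ℂ (fun ξ => a i ((A.ch i).symm ξ)) (A.ch i x) ξ = m • a i x → ξ = 0

/-- finite cover by balls in charts, with bounded lifts of the maps `ι` and `β` to projective
spaces -/
structure SC (A : Cha E X) {n m : ℕ} (ι : X → PP n) (β : X → PP m) (J : ℕ) (ix : Fin J → A.ι)
    (ctr : Fin J → E) (r : Fin J → ℝ) (G : Fin J → E → Fin (n + 1) → ℂ)
    (K : Fin J → E → Fin (m + 1) → ℂ) (C : ℝ) : Prop where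
  r_pos : ∀ j, 0 < r j
  tgt : ∀ j, closedBall (ctr j) (r j) ⊆ (A.ch (ix j)).target
  G_an : ∀ j, ∀ ξ ∈ closedBall (ctr j) (r j), AnalyticAt ℂ (G j) ξ
  K_an : ∀ j, ∀ ξ ∈ closedBall (ctr j) (r j), AnalyticAt ℂ (K j) ξ
  G_lift : ∀ j, ∀ ξ ∈ closedBall (ctr j) (r j), ∃ h : G j ξ ≠ 0,
    ι ((A.ch (ix j)).symm ξ) = Projectivization.mk ℂ (G j ξ) h
  K_lift : ∀ j, ∀ ξ ∈ closedBall (ctr j) (r j), ∃ h : K j ξ ≠ 0,
    β ((A.ch (ix j)).symm ξ) = Projectivization.mk ℂ (K j ξ) h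
  G_bd : ∀ j, ∀ ξ ∈ closedBall (ctr j) (r j), 1 ≤ C * ‖G j ξ‖ ∧ ‖G j ξ‖ ≤ C
  K_bd : ∀ j, ∀ ξ ∈ closedBall (ctr j) (r j), 1 ≤ C * ‖K j ξ‖ ∧ ‖K j ξ‖ ≤ C
  cov : ∀ x : X, ∃ j, x ∈ (A.ch (ix j)).source ∧ A.ch (ix j) x ∈ closedBall (ctr j) (r j / 4)

/-- the general bihomogeneous polynomial of degree `2 D` in three coordinates `p`, `q`, `r` of `v`
and of degree `D` in the coordinates `s`, `t` of `w` -/
noncomputable def bip {n m : ℕ} (D : ℕ) (p q r : Fin (n + 1)) (s t : Fin (m + 1))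
    (c : Fin (D + 1) × Fin (D + 1) × Fin (D + 1) → ℂ) (v : Fin (n + 1) → ℂ) (w : Fin (m + 1) → ℂ) :
    ℂ :=
  ∑ a, c a * (v p ^ (2 * D - a.1 - a.2.1) * v q ^ (a.1 : ℕ) * v r ^ (a.2.1 : ℕ)) *
    (w s ^ (D - a.2.2) * w t ^ (a.2.2 : ℕ))

/-- `η` is a holomorphic one-form (in the charts) with values in `W` -/
structure OF (A : Cha E X) {W : Type} [NormedAddCommGroup W] [NormedSpace ℂ W]
    (η : A.ι → X → (E →L[ℂ] W)) : Prop where
  an : ∀ i, ∀ x ∈ (A.ch i).source, AnalyticAt ℂ (fun ξ => η i ((A.ch i).symm ξ)) (A.ch i x)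
  tr : ∀ i j x, x ∈ (A.ch i).source → x ∈ (A.ch j).source → η i x = (η j x).comp (dtr A i j x)

/-- the value of the wedge product of two linear forms on the basis -/
noncomputable def wdg (e : Module.Basis (Fin 2) ℂ E) (α β : E →L[ℂ] ℂ) : ℂ :=
  α (e 0) * β (e 1) - α (e 1) * β (e 0)

/-- the one-form `a p • d (a q) - a q • d (a p)` (with values in the `2 k`-th power of the canonical
bundle) -/
noncomputable def wr (A : Cha E X) {n : ℕ} (a : A.ι → X → Fin (n + 1) → ℂ) (p q : Fin (n + 1))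
    (i : A.ι) (x : X) : E →L[ℂ] ℂ :=
  a i x p • fderiv ℂ (fun ξ => a i ((A.ch i).symm ξ) q) (A.ch i x) -
    a i x q • fderiv ℂ (fun ξ => a i ((A.ch i).symm ξ) p) (A.ch i x)

/-- the torus-valued map `φ` is holomorphic, with derivative `Φ` -/
structure Prim (A : Cha E X) {W : Type} [NormedAddCommGroup W] [NormedSpace ℂ W]
    {Γ : Submodule ℤ W} (φ : X → W ⧸ Γ) (Φ : A.ι → X → (E →L[ℂ] W)) : Prop where
  of : OF A Φ
  prim : ∀ x, ∃ F : X → W, ∀ᶠ y in 𝓝 x, φ y = Submodule.Quotient.mk (F y) ∧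
    ∀ i, y ∈ (A.ch i).source → AnalyticAt ℂ (fun ξ => F ((A.ch i).symm ξ)) (A.ch i y) ∧
      Φ i y = fderiv ℂ (fun ξ => F ((A.ch i).symm ξ)) (A.ch i y)

/-- the section `t` does not vanish identically -/
def NZ {A : Cha E X} {M : Type} [Zero M] (t : A.ι → X → M) : Prop :=
  ∃ i, ∃ x ∈ (A.ch i).source, t i x ≠ 0

/-- the section `t` vanishes along the curve `h` -/
def VA {A : Cha E X} {M : Type} [Zero M] (t : A.ι → X → M) (h : ℂ → X) : Prop :=
  ∀ z i, h z ∈ (A.ch i).source → t i (h z) = 0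

end

end Pool.Agent.IS
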