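import Pool.Agent.Lib_helper80.SL.Notions2

/-! # Irregular surfaces (MP_45e720_ag): definitions for the statement -/

set_option autoImplicit false

open scoped Manifold ContDiff

namespace Pool.Agent.StrongLang

section

variable (E X : Type) [NormedAddCommGroup E] [NormedSpace ℂ E] [TopologicalSpace X]
  [ChartedSpace E X] [IsManifold 𝓘(ℂ, E) ω X]

omit [IsManifold 𝓘(ℂ, E) ω X] in
/-- `X` has a nonconstant holomorphic map to a complex torus (more generally, to `W / Γ`, where `Γ`
is a discrete subgroup of the finite-dimensional complex vector space `W`). If `X` is a projective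
manifold, then this says that `X` is irregular, `q (X) > 0`. -/
def MapsToTorus : Prop :=
  ∃ (W : Type) (_ : NormedAddCommGroup W) (_ : NormedSpace ℂ W) (_ : FiniteDimensional ℂ W)
    (Γ : Submodule ℤ W) (_ : DiscreteTopology Γ) (φ : X → W ⧸ Γ),
    IsTorusValued E Γ φ ∧ ∃ x y, φ x ≠ φ y

/-- Some finite unramified covering `X'` of `X` has a nonconstant holomorphic map to a complex torus
(for instance `X` itself). A holomorphic map `π : X' → X` between compact connected manifolds of the
same dimension whose derivatives are injective is a finite unramified covering. -/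
def IrregularCovering : Prop :=
  ∃ (X' : Type) (_ : TopologicalSpace X') (_ : CompactSpace X') (_ : T2Space X')
    (_ : ConnectedSpace X') (_ : ChartedSpace E X') (_ : IsManifold 𝓘(ℂ, E) ω X') (π : X' → X),
    MDifferentiable 𝓘(ℂ, E) 𝓘(ℂ, E) π ∧
      (∀ (x' : X') (v : E), (SS.dirDeriv π x' v : E) = 0 → v = 0) ∧ MapsToTorus E X'

end

end Pool.Agent.StrongLang
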